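import Mathlib

set_option autoImplicit false
open Finset Filter Topology

namespace Pool.Agent.X145.Hole

/-- the Taylor coefficients of `exp (z²/2)` in the basis `zⁿ/√n!` -/
noncomputable def Fc (n : ℕ) : ℝ :=
  if Even n then Real.sqrt (n.factorial) / (2 ^ (n / 2) * ((n / 2).factorial : ℝ)) else 0

theorem Fc_nonneg (n : ℕ) : 0 ≤ Fc n := by
  unfold Fc
  split_ifs <;> positivity

theorem Fc_le_one (n : ℕ) : Fc n ≤ 1 := by
  unfold Fc
  split_ifs with h
  · obtain ⟨k, hk⟩ := h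
    have hk2 : n / 2 = k := by omega
    rw [hk2, div_le_one (by positivity)]
    refine Real.sqrt_le_iff.2 ⟨by positivity, ?_⟩
    have h1 : n.factorial = Nat.centralBinom k * (k.factorial * k.factorial) := by
      rw [Nat.centralBinom_eq_two_mul_choose, hk, ← two_mul]
      have := Nat.choose_mul_factorial_mul_factorial (n := 2 * k) (k := k) (by omega)
      rw [show 2 * k - k = k by omega] at this
      rw [← this, mul_assoc]
    have h2 := Nat.centralBinom_le_four_pow k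
    have h3 : n.factorial ≤ 4 ^ k * (k.factorial * k.factorial) := by
      rw [h1]
      exact Nat.mul_le_mul_right _ h2
    have h4 : (n.factorial : ℝ) ≤ 4 ^ k * (k.factorial * k.factorial) := by exact_mod_cast h3
    calc (n.factorial : ℝ) ≤ 4 ^ k * (k.factorial * k.factorial) := h4
      _ = (2 ^ k * (k.factorial : ℝ)) ^ 2 := by
        rw [mul_pow, ← pow_mul, mul_comm k 2, pow_mul]
        norm_num
        ring
  · norm_num

/-- basis function -/
noncomputable def bz (n : ℕ) (z : ℂ) : ℂ := z ^ n / (Real.sqrt (n.factorial) : ℂ)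

theorem norm_bz (n : ℕ) (z : ℂ) : ‖bz n z‖ = ‖z‖ ^ n / Real.sqrt (n.factorial) := by
  unfold bz
  rw [norm_div, norm_pow, Complex.norm_real, Real.norm_of_nonneg (Real.sqrt_nonneg _)]

theorem hasSum_F (z : ℂ) : HasSum (fun n => (Fc n : ℂ) * bz n z) (Complex.exp (z ^ 2 / 2)) := by
  have h1 : HasSum (fun k : ℕ => (z ^ 2 / 2) ^ k / (k.factorial : ℂ)) (Complex.exp (z ^ 2 / 2)) := by
    have := NormedSpace.expSeries_div_hasSum_exp (z ^ 2 / 2 : ℂ)
    rwa [← Complex.exp_eq_exp_ℂ] at this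
  have he : HasSum (fun k : ℕ => (Fc (2 * k) : ℂ) * bz (2 * k) z) (Complex.exp (z ^ 2 / 2)) := by
    convert h1 using 2 with k
    unfold Fc bz
    rw [if_pos (even_two_mul k), show 2 * k / 2 = k by omega]
    have hs : ((Real.sqrt ((2 * k).factorial) : ℝ) : ℂ) ≠ 0 := by
      rw [Complex.ofReal_ne_zero]
      positivity
    push_cast
    have hk : (k.factorial : ℂ) ≠ 0 := by exact_mod_cast k.factorial_ne_zero
    field_simp
    rw [div_pow, pow_mul]
    field_simp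
  have ho : HasSum (fun k : ℕ => (Fc (2 * k + 1) : ℂ) * bz (2 * k + 1) z) 0 := by
    have : (fun k : ℕ => (Fc (2 * k + 1) : ℂ) * bz (2 * k + 1) z) = fun _ => 0 := by
      funext k
      unfold Fc
      rw [if_neg (by simp)]
      simp
    rw [this]
    exact hasSum_zero
  have h3 := HasSum.even_add_odd (f := fun n => (Fc n : ℂ) * bz n z) he ho
  rwa [add_zero] at h3

/-- `xⁿ/√n! ≤ 2⁻ⁿ exp (2 x²)` -/
theorem basic_bound (x : ℝ) (hx : 0 ≤ x) (n : ℕ) :
    x ^ n / Real.sqrt (n.factorial) ≤ (1 / 2) ^ n * Real.exp (2 * x ^ 2) := by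
  have h1 : ((2 * x) ^ n / Real.sqrt (n.factorial)) ^ 2 ≤ (Real.exp (2 * x ^ 2)) ^ 2 := by
    rw [div_pow, Real.sq_sqrt (by positivity), ← pow_mul, mul_comm n 2, pow_mul]
    have := Real.pow_div_factorial_le_exp ((2 * x) ^ 2) (by positivity) n
    refine this.trans (le_of_eq ?_)
    rw [← Real.exp_nat_mul]
    congr 1
    push_cast
    ring
  have h2 : (2 * x) ^ n / Real.sqrt (n.factorial) ≤ Real.exp (2 * x ^ 2) :=
    le_of_sq_le_sq h1 (Real.exp_pos _).le
  have h3 : x ^ n / Real.sqrt (n.factorial) = (1 / 2) ^ n * ((2 * x) ^ n / Real.sqrt (n.factorial)) := by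
    rw [mul_pow]
    have : (1 / 2 : ℝ) ^ n * 2 ^ n = 1 := by
      rw [← mul_pow]
      norm_num
    calc x ^ n / Real.sqrt (n.factorial) = ((1 / 2 : ℝ) ^ n * 2 ^ n) * (x ^ n / Real.sqrt (n.factorial)) := by
          rw [this, one_mul]
      _ = _ := by ring
  rw [h3]
  exact mul_le_mul_of_nonneg_left h2 (by positivity)

/-- The deterministic estimate: on the good event there is no zero. -/
theorem no_zero (r δ η : ℝ) (N : ℕ) (ξ : ℕ → ℂ) (hr : 0 ≤ r) (hδ0 : 0 ≤ δ) (hδ1 : δ ≤ 1)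
    (hη0 : 0 ≤ η) (hη : 2 * (η * Real.sqrt (N + 1)) ≤ Real.exp (-(δ ^ 2 * r ^ 2)))
    (hN : 4 * ((1 / 2 : ℝ) ^ N * Real.exp (32 * r ^ 2)) < Real.exp (-(δ ^ 2 * r ^ 2)))
    (h1 : ∀ n, n ≤ N → ‖ξ n - Fc n‖ ≤ η) (h2 : ∀ n, N < n → ‖ξ n‖ ≤ 2 ^ n)
    (z : ℂ) (hz : ‖z‖ ≤ 2 * r) (hy : |z.im| ≤ δ * r) :
    ∑' n, ξ n * bz n z ≠ 0 := by
  have hF := hasSum_F z
  -- bounds for the differences
  set d : ℕ → ℂ := fun n => (ξ n - Fc n) * bz n z with hd
  have htail : ∀ n, N < n → ‖d n‖ ≤ 2 * ((1 / 2) ^ n * Real.exp (32 * r ^ 2)) := by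
    intro n hn
    rw [hd]
    simp only
    rw [norm_mul, norm_bz]
    have h3 : ‖ξ n - Fc n‖ ≤ 2 * 2 ^ n := by
      have hf : ‖(Fc n : ℂ)‖ ≤ 1 := by
        rw [Complex.norm_real, Real.norm_of_nonneg (Fc_nonneg n)]
        exact Fc_le_one n
      have h4 : (1 : ℝ) ≤ 2 ^ n := one_le_pow₀ (by norm_num)
      calc ‖ξ n - Fc n‖ ≤ ‖ξ n‖ + ‖(Fc n : ℂ)‖ := norm_sub_le _ _
        _ ≤ 2 ^ n + 1 := add_le_add (h2 n hn) hf
        _ ≤ 2 * 2 ^ n := by linarith
    have h5 : ‖z‖ ^ n / Real.sqrt (n.factorial) ≤ (2 * r) ^ n / Real.sqrt (n.factorial) := by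
      gcongr
    calc ‖ξ n - Fc n‖ * (‖z‖ ^ n / Real.sqrt (n.factorial))
        ≤ (2 * 2 ^ n) * ((2 * r) ^ n / Real.sqrt (n.factorial)) :=
          mul_le_mul h3 h5 (by positivity) (by positivity)
      _ = 2 * ((4 * r) ^ n / Real.sqrt (n.factorial)) := by
          rw [show 4 * r = 2 * (2 * r) by ring, mul_pow 2 (2 * r)]
          ring
      _ ≤ 2 * ((1 / 2) ^ n * Real.exp (2 * (4 * r) ^ 2)) :=
          mul_le_mul_of_nonneg_left (basic_bound (4 * r) (by positivity) n) (by norm_num)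
      _ = 2 * ((1 / 2) ^ n * Real.exp (32 * r ^ 2)) := by ring_nf
  have hsum_maj : Summable (fun n : ℕ => 2 * ((1 / 2 : ℝ) ^ n * Real.exp (32 * r ^ 2))) :=
    (summable_geometric_two.mul_right _).mul_left _
  have hdsum : Summable (fun n => ‖d n‖) := by
    rw [← summable_nat_add_iff (N + 1)]
    refine Summable.of_nonneg_of_le (fun n => norm_nonneg _) (fun n => htail (n + (N + 1)) (by omega)) ?_
    exact (summable_nat_add_iff (N + 1)).2 hsum_maj
  have hdS : Summable d := hdsum.of_norm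
  have hsum : HasSum (fun n => ξ n * bz n z) (Complex.exp (z ^ 2 / 2) + ∑' n, d n) := by
    have := hF.add hdS.hasSum
    refine this.congr_fun ?_ |> fun h => h
    intro n
    simp only [hd]
    ring
  rw [hsum.tsum_eq]
  -- size of the perturbation
  have hsmall : ‖∑' n, d n‖ < Real.exp (‖z‖ ^ 2 / 2) * Real.exp (-(δ ^ 2 * r ^ 2)) := by
    have hn : ‖∑' n, d n‖ ≤ ∑' n, ‖d n‖ := norm_tsum_le_tsum_norm hdsum
    have hsplit := (hdsum.sum_add_tsum_nat_add (N + 1))
    have hA : ∑ n ∈ range (N + 1), ‖d n‖ ≤ η * Real.sqrt (N + 1) * Real.exp (‖z‖ ^ 2 / 2) := by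
      have hA1 : ∑ n ∈ range (N + 1), ‖d n‖ ≤ η * ∑ n ∈ range (N + 1), ‖z‖ ^ n / Real.sqrt (n.factorial) := by
        rw [Finset.mul_sum]
        refine Finset.sum_le_sum fun n hn => ?_
        rw [hd]
        simp only
        rw [norm_mul, norm_bz]
        exact mul_le_mul_of_nonneg_right (h1 n (by
          have := Finset.mem_range.1 hn
          omega)) (by positivity)
      have hA2 : (∑ n ∈ range (N + 1), ‖z‖ ^ n / Real.sqrt (n.factorial)) ^ 2
          ≤ (N + 1) * Real.exp (‖z‖ ^ 2) := by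
        have := sq_sum_le_card_mul_sum_sq (s := range (N + 1))
          (f := fun n => ‖z‖ ^ n / Real.sqrt (n.factorial))
        refine this.trans ?_
        rw [Finset.card_range]
        push_cast
        refine mul_le_mul_of_nonneg_left ?_ (by positivity)
        have h6 := Real.sum_le_exp_of_nonneg (x := ‖z‖ ^ 2) (by positivity) (N + 1)
        refine le_trans (le_of_eq ?_) h6
        refine Finset.sum_congr rfl fun n _ => ?_
        rw [div_pow, Real.sq_sqrt (by positivity), ← pow_mul, ← pow_mul, mul_comm n 2]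
      have hA3 : ∑ n ∈ range (N + 1), ‖z‖ ^ n / Real.sqrt (n.factorial)
          ≤ Real.sqrt (N + 1) * Real.exp (‖z‖ ^ 2 / 2) := by
        refine le_of_sq_le_sq ?_ (by positivity)
        rw [mul_pow, Real.sq_sqrt (by positivity), ← Real.exp_nat_mul]
        push_cast
        rw [show 2 * (‖z‖ ^ 2 / 2) = ‖z‖ ^ 2 by ring]
        exact hA2
      calc ∑ n ∈ range (N + 1), ‖d n‖ ≤ η * ∑ n ∈ range (N + 1), ‖z‖ ^ n / Real.sqrt (n.factorial) := hA1
        _ ≤ η * (Real.sqrt (N + 1) * Real.exp (‖z‖ ^ 2 / 2)) :=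
            mul_le_mul_of_nonneg_left hA3 hη0
        _ = _ := by ring
    have hB : ∑' n, ‖d (n + (N + 1))‖ ≤ 2 * ((1 / 2 : ℝ) ^ N * Real.exp (32 * r ^ 2)) := by
      have hB1 : ∑' n, ‖d (n + (N + 1))‖ ≤
          ∑' n : ℕ, 2 * ((1 / 2 : ℝ) ^ (n + (N + 1)) * Real.exp (32 * r ^ 2)) := by
        refine Summable.tsum_le_tsum (fun n => htail _ (by omega)) ?_ ?_
        · exact (summable_nat_add_iff (N + 1)).2 hdsum
        · exact (summable_nat_add_iff (N + 1)).2 hsum_maj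
      refine hB1.trans (le_of_eq ?_)
      have : ∀ n : ℕ, 2 * ((1 / 2 : ℝ) ^ (n + (N + 1)) * Real.exp (32 * r ^ 2))
          = (2 * (1 / 2) ^ (N + 1) * Real.exp (32 * r ^ 2)) * (1 / 2) ^ n := by
        intro n
        rw [pow_add]
        ring
      simp_rw [this]
      rw [tsum_mul_left, tsum_geometric_two, pow_succ]
      ring
    have hexp1 : (1 : ℝ) ≤ Real.exp (‖z‖ ^ 2 / 2) := Real.one_le_exp (by positivity)
    have hη' : η * Real.sqrt (N + 1) * Real.exp (‖z‖ ^ 2 / 2) ≤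
        Real.exp (-(δ ^ 2 * r ^ 2)) / 2 * Real.exp (‖z‖ ^ 2 / 2) :=
      mul_le_mul_of_nonneg_right (by linarith) (by positivity)
    have hN' : 2 * ((1 / 2 : ℝ) ^ N * Real.exp (32 * r ^ 2)) <
        Real.exp (-(δ ^ 2 * r ^ 2)) / 2 * Real.exp (‖z‖ ^ 2 / 2) := by
      have h8 : 2 * ((1 / 2 : ℝ) ^ N * Real.exp (32 * r ^ 2)) < Real.exp (-(δ ^ 2 * r ^ 2)) / 2 := by
        linarith
      have h9 : Real.exp (-(δ ^ 2 * r ^ 2)) / 2 ≤ Real.exp (-(δ ^ 2 * r ^ 2)) / 2 * Real.exp (‖z‖ ^ 2 / 2) :=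
        le_mul_of_one_le_right (by positivity) hexp1
      linarith
    rw [← hsplit] at hn
    linarith
  -- size of `exp (z²/2)`
  have hbig : Real.exp (‖z‖ ^ 2 / 2) * Real.exp (-(δ ^ 2 * r ^ 2)) ≤ ‖Complex.exp (z ^ 2 / 2)‖ := by
    rw [Complex.norm_exp, ← Real.exp_add]
    refine Real.exp_le_exp.2 ?_
    have hre : (z ^ 2 / 2).re = (z.re ^ 2 - z.im ^ 2) / 2 := by
      have : z ^ 2 / 2 = ((1 / 2 : ℝ) : ℂ) * z ^ 2 := by
        push_cast
        ring
      rw [this, Complex.re_ofReal_mul, sq, Complex.mul_re]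
      ring
    rw [hre, ← Complex.normSq_eq_norm_sq, Complex.normSq_apply]
    have : z.im ^ 2 ≤ (δ * r) ^ 2 := by
      rw [← sq_abs]
      exact pow_le_pow_left₀ (abs_nonneg _) hy 2
    nlinarith
  intro h0
  have h10 : Complex.exp (z ^ 2 / 2) = -(∑' n, d n) := by
    linear_combination h0
  rw [h10, norm_neg] at hbig
  linarith

end Pool.Agent.X145.Hole
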