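import Pool.Agent.X145.Hole.Defs

set_option autoImplicit false
open Filter Topology Finset

namespace Pool.Agent.X145.Hole

theorem distProd_le (n : ℕ) (z : Fin n → ℂ) (hz : ∀ i, ‖z i‖ ≤ 2) : distProd n z ≤ 4 ^ (n * n) := by
  unfold distProd
  have h1 : ∀ i : Fin n, ∏ j ∈ Finset.univ.filter (fun j : Fin n => i < j), ‖z i - z j‖ ≤ 4 ^ n := by
    intro i
    calc ∏ j ∈ Finset.univ.filter (fun j : Fin n => i < j), ‖z i - z j‖
        ≤ ∏ _j ∈ Finset.univ.filter (fun j : Fin n => i < j), (4 : ℝ) := by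
          refine Finset.prod_le_prod (fun j _ => norm_nonneg _) fun j _ => ?_
          calc ‖z i - z j‖ ≤ ‖z i‖ + ‖z j‖ := norm_sub_le _ _
            _ ≤ 4 := by linarith [hz i, hz j]
      _ = 4 ^ (Finset.univ.filter (fun j : Fin n => i < j)).card := by rw [Finset.prod_const]
      _ ≤ 4 ^ n := by
          refine pow_le_pow_right₀ (by norm_num) ?_
          calc _ ≤ (Finset.univ : Finset (Fin n)).card := Finset.card_filter_le _ _
            _ = n := by simp
  calc ∏ i : Fin n, ∏ j ∈ Finset.univ.filter (fun j : Fin n => i < j), ‖z i - z j‖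
      ≤ ∏ _i : Fin n, (4 : ℝ) ^ n :=
        Finset.prod_le_prod (fun i _ => Finset.prod_nonneg fun j _ => norm_nonneg _) fun i _ => h1 i
    _ = 4 ^ (n * n) := by
        rw [Finset.prod_const, Finset.card_univ, Fintype.card_fin, ← pow_mul]

theorem rect_norm (δ : ℝ) (hδ : δ ≤ 1) (w : ℂ) (hw : w ∈ rect δ) : ‖w‖ ≤ 2 := by
  obtain ⟨h0, h1, h2⟩ := hw
  calc ‖w‖ ≤ |w.re| + |w.im| := Complex.norm_le_abs_re_add_abs_im w
    _ ≤ 1 + 1 := add_le_add (by rw [abs_of_nonneg h0]; exact h1) (h2.trans hδ)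
    _ = 2 := by norm_num

theorem bdd (δ : ℝ) (hδ : δ ≤ 1) (n : ℕ) :
    BddAbove (Set.range fun z : Fin n → rect δ => distProd n (fun i => (z i : ℂ))) := by
  refine ⟨4 ^ (n * n), ?_⟩
  rintro _ ⟨z, rfl⟩
  exact distProd_le n _ fun i => rect_norm δ hδ _ (z i).2

/-- one row of the equally spaced points -/
theorem row_low (m : ℕ) (hm : 0 < m) (i : Fin (m + 1)) :
    Real.exp (-(m : ℝ)) ≤ ∏ j ∈ Finset.univ.filter (fun j : Fin (m + 1) => i < j),
      ‖(((i : ℕ) : ℝ) / m : ℂ) - (((j : ℕ) : ℝ) / m : ℂ)‖ := by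
  have hmR : (0 : ℝ) < m := by exact_mod_cast hm
  set f : ℕ → ℝ := fun k => (k : ℝ) / m with hf
  have hterm : ∀ j ∈ Finset.univ.filter (fun j : Fin (m + 1) => i < j),
      ‖(((i : ℕ) : ℝ) / m : ℂ) - (((j : ℕ) : ℝ) / m : ℂ)‖ = f (j.val - i.val) := by
    intro j hj
    have hij : i.val < j.val := (Finset.mem_filter.1 hj).2
    rw [hf]
    simp only
    have e : (((i : ℕ) : ℝ) / m : ℂ) - (((j : ℕ) : ℝ) / m : ℂ)
        = ((-((((j.val - i.val : ℕ)) : ℝ) / m) : ℝ) : ℂ) := by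
      push_cast [Nat.cast_sub hij.le]
      ring
    rw [e, Complex.norm_real, norm_neg, Real.norm_of_nonneg (by positivity)]
  rw [Finset.prod_congr rfl hterm]
  set S := Finset.univ.filter (fun j : Fin (m + 1) => i < j) with hS
  have himg : ∏ j ∈ S, f (j.val - i.val) = ∏ k ∈ S.image (fun j => j.val - i.val), f k := by
    rw [Finset.prod_image]
    intro a ha b hb hab
    have ha' : i.val < a.val := (Finset.mem_filter.1 ha).2
    have hb' : i.val < b.val := (Finset.mem_filter.1 hb).2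
    apply Fin.ext
    simp only at hab
    omega
  rw [himg]
  have hsub : S.image (fun j => j.val - i.val) ⊆ Finset.Icc 1 m := by
    intro k hk
    obtain ⟨j, hj, rfl⟩ := Finset.mem_image.1 hk
    have hj' : i.val < j.val := (Finset.mem_filter.1 hj).2
    rw [Finset.mem_Icc]
    have := j.2
    omega
  have hfull : Real.exp (-(m : ℝ)) ≤ ∏ k ∈ Finset.Icc 1 m, f k := by
    rw [hf]
    rw [Finset.prod_div_distrib, Finset.prod_const, Nat.card_Icc]
    have h1 : ∏ k ∈ Finset.Icc 1 m, (k : ℝ) = (m.factorial : ℝ) := by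
      rw [← Finset.prod_range_add_one_eq_factorial, Nat.cast_prod, Finset.range_eq_Ico,
        Finset.prod_Ico_add' (fun k : ℕ => (k : ℝ)) 0 m 1]
      rfl
    rw [h1, Real.exp_neg, show m + 1 - 1 = m by omega, ← one_div, div_le_div_iff₀ (Real.exp_pos _) (by positivity)]
    have h2 := Real.pow_div_factorial_le_exp (m : ℝ) hmR.le m
    rw [div_le_iff₀ (by positivity)] at h2
    linarith
  refine hfull.trans ?_
  rw [← Finset.prod_sdiff hsub]
  refine mul_le_of_le_one_left (Finset.prod_nonneg fun k _ => by rw [hf]; positivity) ?_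
  refine Finset.prod_le_one (fun k _ => by rw [hf]; positivity) fun k hk => ?_
  have hk' := (Finset.mem_Icc.1 (Finset.mem_sdiff.1 hk).1).2
  rw [hf]
  simp only
  rw [div_le_one hmR]
  exact_mod_cast hk'

theorem nthDiameter_low (δ : ℝ) (hδ0 : 0 ≤ δ) (hδ : δ ≤ 1) (n : ℕ) (hn : 2 ≤ n) :
    Real.exp (-2) ≤ nthDiameter (rect δ) n := by
  obtain ⟨m, rfl⟩ : ∃ m, n = m + 1 := ⟨n - 1, by omega⟩
  have hm : 0 < m := by omega
  have hmR : (0 : ℝ) < m := by exact_mod_cast hm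
  let z : Fin (m + 1) → rect δ := fun i => ⟨(((i : ℕ) : ℝ) / m : ℂ), by
    have e : (((i : ℕ) : ℝ) / m : ℂ) = ((((i : ℕ) : ℝ) / m : ℝ) : ℂ) := by push_cast; rfl
    refine ⟨?_, ?_, ?_⟩
    · rw [e, Complex.ofReal_re]
      positivity
    · rw [e, Complex.ofReal_re, div_le_one hmR]
      have := i.2
      exact_mod_cast (show (i : ℕ) ≤ m by omega)
    · rw [e, Complex.ofReal_im, abs_zero]
      exact hδ0⟩
  have h1 : Real.exp (-(m : ℝ)) ^ (m + 1) ≤ distProd (m + 1) (fun i => (z i : ℂ)) := by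
    unfold distProd
    calc Real.exp (-(m : ℝ)) ^ (m + 1) = ∏ _i : Fin (m + 1), Real.exp (-(m : ℝ)) := by
          rw [Finset.prod_const, Finset.card_univ, Fintype.card_fin]
      _ ≤ _ := Finset.prod_le_prod (fun i _ => (Real.exp_pos _).le) fun i _ => row_low m hm i
  have h2 : Real.exp (-(m : ℝ)) ^ (m + 1) ≤ ⨆ z : Fin (m + 1) → rect δ, distProd (m + 1) (fun i => (z i : ℂ)) :=
    h1.trans (le_ciSup (bdd δ hδ (m + 1)) z)
  unfold nthDiameter
  have h3 : Real.exp (-2) = (Real.exp (-(m : ℝ)) ^ (m + 1)) ^ (2 / (((m + 1 : ℕ) : ℝ) * (((m + 1 : ℕ) : ℝ) - 1))) := by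
    rw [← Real.exp_nat_mul, ← Real.exp_mul]
    congr 1
    push_cast
    rw [show (m : ℝ) + 1 - 1 = m by ring]
    field_simp
  rw [h3]
  refine Real.rpow_le_rpow (by positivity) h2 ?_
  push_cast
  have : (0 : ℝ) < (m : ℝ) + 1 := by positivity
  have h4 : ((m : ℝ) + 1) * ((m : ℝ) + 1 - 1) = ((m : ℝ) + 1) * m := by ring
  rw [h4]
  positivity

theorem nthDiameter_up (δ : ℝ) (hδ0 : 0 ≤ δ) (hδ : δ ≤ 1) (n : ℕ) (hn : 2 ≤ n) :
    nthDiameter (rect δ) n ≤ 4 ^ (4 : ℝ) := by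
  have : Nonempty (rect δ) := ⟨⟨0, by simp, by simp, by simpa using hδ0⟩⟩
  unfold nthDiameter
  have h1 : (⨆ z : Fin n → rect δ, distProd n (fun i => (z i : ℂ))) ≤ 4 ^ (n * n) :=
    ciSup_le fun z => distProd_le n _ fun i => rect_norm δ hδ _ (z i).2
  have h0 : 0 ≤ (⨆ z : Fin n → rect δ, distProd n (fun i => (z i : ℂ))) :=
    Real.iSup_nonneg fun z => Finset.prod_nonneg fun i _ => Finset.prod_nonneg fun j _ => norm_nonneg _
  have hnR : (2 : ℝ) ≤ n := by exact_mod_cast hn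
  have hexp : 0 ≤ 2 / ((n : ℝ) * ((n : ℝ) - 1)) := div_nonneg (by norm_num) (by nlinarith)
  refine (Real.rpow_le_rpow h0 h1 hexp).trans ?_
  rw [← Real.rpow_natCast 4 (n * n), ← Real.rpow_mul (by norm_num)]
  refine Real.rpow_le_rpow_of_exponent_le (by norm_num) ?_
  push_cast
  have h5 : (0 : ℝ) < (n : ℝ) * ((n : ℝ) - 1) := by nlinarith
  rw [mul_div_assoc', div_le_iff₀ h5]
  nlinarith

theorem capacity_low (δ : ℝ) (hδ0 : 0 ≤ δ) (hδ : δ ≤ 1) : Real.exp (-2) ≤ capacity (rect δ) := by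
  unfold capacity
  refine Filter.le_limsup_of_frequently_le ?_ ?_
  · refine Filter.Eventually.frequently ?_
    filter_upwards [eventually_ge_atTop 2] with n hn
    exact nthDiameter_low δ hδ0 hδ n hn
  · refine ⟨4 ^ (4 : ℝ), ?_⟩
    rw [eventually_map]
    filter_upwards [eventually_ge_atTop 2] with n hn
    exact nthDiameter_up δ hδ0 hδ n hn

end Pool.Agent.X145.Hole
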