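import Mathlib

set_option autoImplicit false
open MeasureTheory Filter

namespace Pool.Agent.X145.Hole

/-- The standard complex Gaussian law, with density `(1/π) e^{-|w|²}` on `ℂ`. -/
noncomputable def gaussC : Measure ℂ :=
  (volume : Measure ℂ).withDensity (fun w => ENNReal.ofReal (Real.exp (-‖w‖ ^ 2) / Real.pi))

/-- The law of a sequence `ξ₀, ξ₁, …` of independent standard complex Gaussian variables. -/
noncomputable def gefLaw : Measure (ℕ → ℂ) := Measure.infinitePi (fun _ : ℕ => gaussC)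

/-- The Gaussian entire function `f(z) = ∑ ξₙ zⁿ / √(n!)`. -/
noncomputable def gef (ξ : ℕ → ℂ) (z : ℂ) : ℂ :=
  ∑' n : ℕ, ξ n * (z ^ n / (Real.sqrt (n.factorial) : ℂ))

/-- `p_{H,K}(f;r) = - log P(f(z) ≠ 0 for all z ∈ r K)`. -/
noncomputable def holeExponent (K : Set ℂ) (r : ℝ) : ℝ :=
  -Real.log ((gefLaw {ξ | ∀ w ∈ K, gef ξ ((r : ℂ) * w) ≠ 0}).toReal)

/-- The product of the mutual distances of `n` points. -/
noncomputable def distProd (n : ℕ) (z : Fin n → ℂ) : ℝ :=
  ∏ i : Fin n, ∏ j ∈ Finset.univ.filter (fun j : Fin n => i < j), ‖z i - z j‖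

/-- The `n`-th diameter `d_n(K) = max (∏_{i<j} |z_i - z_j|)^{2/(n(n-1))}`, `z_i ∈ K`. -/
noncomputable def nthDiameter (K : Set ℂ) (n : ℕ) : ℝ :=
  (⨆ z : Fin n → K, distProd n (fun i => (z i : ℂ))) ^ (2 / ((n : ℝ) * ((n : ℝ) - 1)))

/-- The transfinite diameter (logarithmic capacity) of `K`: the limit (written as an upper limit) of
the `n`-th diameters. -/
noncomputable def capacity (K : Set ℂ) : ℝ := limsup (nthDiameter K) atTop

/-- The closed rectangle `[0,1] × [-δ,δ]`. -/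
def rect (δ : ℝ) : Set ℂ := {w | 0 ≤ w.re ∧ w.re ≤ 1 ∧ |w.im| ≤ δ}

end Pool.Agent.X145.Hole
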