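import Pool.Agent.X145.Hole.Prob
import Pool.Agent.X145.Hole.Cap

set_option autoImplicit false
open MeasureTheory Filter Topology Set

namespace Pool.Agent.X145.Hole

theorem good_subset (r δ η : ℝ) (N : ℕ) (hr : 0 ≤ r) (hδ0 : 0 ≤ δ) (hδ1 : δ ≤ 1)
    (hη0 : 0 ≤ η) (hη : 2 * (η * Real.sqrt (N + 1)) ≤ Real.exp (-(δ ^ 2 * r ^ 2)))
    (hN : 4 * ((1 / 2 : ℝ) ^ N * Real.exp (32 * r ^ 2)) < Real.exp (-(δ ^ 2 * r ^ 2))) :
    good N η ⊆ {ξ | ∀ w ∈ rect δ, gef ξ ((r : ℂ) * w) ≠ 0} := by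
  rintro ξ ⟨h1, h2⟩ w hw
  have hw2 := rect_norm δ hδ1 w hw
  refine no_zero r δ η N ξ hr hδ0 hδ1 hη0 hη hN h1 h2 ((r : ℂ) * w) ?_ ?_
  · rw [norm_mul, Complex.norm_real, Real.norm_of_nonneg hr, mul_comm]
    exact mul_le_mul_of_nonneg_right hw2 hr
  · rw [Complex.im_ofReal_mul, abs_mul, abs_of_nonneg hr, mul_comm]
    exact mul_le_mul_of_nonneg_right hw.2.2 hr

/-- the explicit bound for the hole exponent -/
theorem hole_le (δ r : ℝ) (hδ0 : 0 < δ) (hδ1 : δ ≤ 1) (hr : 1 ≤ r) :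
    holeExponent (rect δ) r ≤ 120 * δ ^ 2 * r ^ 4 + 1500 * r ^ 3 := by
  set N : ℕ := ⌈60 * r ^ 2⌉₊ with hN
  have hr0 : 0 ≤ r := by linarith
  have hr2 : 1 ≤ r ^ 2 := one_le_pow₀ hr
  have hN1 : 60 * r ^ 2 ≤ N := Nat.le_ceil _
  have hN2 : (N : ℝ) < 60 * r ^ 2 + 1 := Nat.ceil_lt_add_one (by positivity)
  have hNpos : 1 ≤ N := by
    have : (1 : ℝ) ≤ N := by linarith
    exact_mod_cast this
  set η : ℝ := Real.exp (-(δ ^ 2 * r ^ 2)) / (2 * Real.sqrt (N + 1)) with hη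
  have hs1 : 1 ≤ Real.sqrt ((N : ℝ) + 1) := by
    rw [Real.one_le_sqrt]
    have : (0 : ℝ) ≤ N := Nat.cast_nonneg N
    linarith
  have hη0 : 0 < η := by positivity
  have hδr : δ ^ 2 * r ^ 2 ≤ r ^ 2 := by
    have : δ ^ 2 ≤ 1 := pow_le_one₀ hδ0.le hδ1
    nlinarith
  have hexp1 : Real.exp (-(δ ^ 2 * r ^ 2)) ≤ 1 := by
    rw [Real.exp_le_one_iff]
    have : 0 ≤ δ ^ 2 * r ^ 2 := by positivity
    linarith
  have hη1 : η ≤ 1 := by
    rw [hη, div_le_one (by positivity)]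
    linarith
  have hc1 : 2 * (η * Real.sqrt (N + 1)) ≤ Real.exp (-(δ ^ 2 * r ^ 2)) := by
    apply le_of_eq
    rw [hη]
    field_simp
  have hc2 : 4 * ((1 / 2 : ℝ) ^ N * Real.exp (32 * r ^ 2)) < Real.exp (-(δ ^ 2 * r ^ 2)) := by
    have hlog2 : 0.69 < Real.log 2 := by
      have := Real.log_two_gt_d9
      linarith
    have h1 : (1 / 2 : ℝ) ^ N = Real.exp (-(Real.log 2 * N)) := by
      rw [one_div, inv_pow, Real.exp_neg, mul_comm, Real.exp_nat_mul, Real.exp_log (by norm_num)]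
    have h4 : (4 : ℝ) < Real.exp 2 := by
      have := Real.exp_one_gt_d9
      have e : Real.exp 2 = Real.exp 1 * Real.exp 1 := by
        rw [← Real.exp_add]
        norm_num
      rw [e]
      nlinarith
    rw [h1, ← Real.exp_add]
    calc 4 * Real.exp (-(Real.log 2 * N) + 32 * r ^ 2)
        < Real.exp 2 * Real.exp (-(Real.log 2 * N) + 32 * r ^ 2) :=
          mul_lt_mul_of_pos_right h4 (Real.exp_pos _)
      _ = Real.exp (2 + (-(Real.log 2 * N) + 32 * r ^ 2)) := by rw [← Real.exp_add]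
      _ ≤ Real.exp (-(δ ^ 2 * r ^ 2)) := by
          refine Real.exp_le_exp.2 ?_
          have h5 : 0.69 * (60 * r ^ 2) ≤ Real.log 2 * N := by
            refine mul_le_mul hlog2.le hN1 (by positivity) (by linarith)
          nlinarith
  have hsub := good_subset r δ η N hr0 hδ0.le hδ1 hη0.le hc1 hc2
  have hlow := (good_low N η hNpos hη0.le hη1).trans (measure_mono hsub)
  rw [ENNReal.ofReal_le_iff_le_toReal (measure_ne_top _ _)] at hlow
  unfold holeExponent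
  have hpos : 0 < (Real.exp (-4) * η ^ 2) ^ (N + 1) / 2 := by positivity
  have hlog := Real.log_le_log hpos hlow
  have h6 : Real.log ((Real.exp (-4) * η ^ 2) ^ (N + 1) / 2)
      = ((N : ℝ) + 1) * (-4 - 2 * (δ ^ 2 * r ^ 2) - 2 * Real.log 2 - Real.log (N + 1)) - Real.log 2 := by
    rw [Real.log_div (by positivity) (by norm_num), Real.log_pow,
      Real.log_mul (Real.exp_pos _).ne' (by positivity), Real.log_exp, Real.log_pow, hη,
      Real.log_div (Real.exp_pos _).ne' (by positivity), Real.log_exp,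
      Real.log_mul (by norm_num) (by positivity), Real.log_sqrt (by positivity)]
    push_cast
    ring
  rw [h6] at hlog
  have hlog2' : Real.log 2 ≤ 1 := by
    have := Real.log_two_lt_d9
    linarith
  have hlog2'' : 0 ≤ Real.log 2 := Real.log_nonneg (by norm_num)
  have hM : (N : ℝ) + 1 ≤ 64 * r ^ 2 := by nlinarith
  have hM0 : (0 : ℝ) < (N : ℝ) + 1 := by positivity
  have hlogN : Real.log ((N : ℝ) + 1) ≤ 16 * r := by
    have h7 : Real.log ((N : ℝ) + 1) ≤ Real.log ((8 * r) ^ 2) :=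
      Real.log_le_log hM0 (by nlinarith)
    rw [Real.log_pow] at h7
    have h8 : Real.log (8 * r) ≤ 8 * r - 1 := Real.log_le_sub_one_of_pos (by positivity)
    push_cast at h7
    linarith
  have hmain : ((N : ℝ) + 1) * (4 + 2 * (δ ^ 2 * r ^ 2) + 2 * Real.log 2 + Real.log (N + 1)) + Real.log 2
      ≤ 120 * δ ^ 2 * r ^ 4 + 1500 * r ^ 3 := by
    have h9 : ((N : ℝ) + 1) * (2 * (δ ^ 2 * r ^ 2)) ≤ (60 * r ^ 2 + 2) * (2 * (δ ^ 2 * r ^ 2)) := by
      refine mul_le_mul_of_nonneg_right (by linarith) (by positivity)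
    have h10 : ((N : ℝ) + 1) * (4 + 2 * Real.log 2 + Real.log (N + 1)) ≤ (64 * r ^ 2) * (6 + 16 * r) := by
      refine mul_le_mul hM (by linarith) ?_ (by positivity)
      have := Real.log_nonneg (show (1 : ℝ) ≤ (N : ℝ) + 1 by
        have : (0 : ℝ) ≤ N := Nat.cast_nonneg N
        linarith)
      linarith
    have hr3 : r ^ 2 ≤ r ^ 3 := pow_le_pow_right₀ hr (by norm_num)
    have hr3' : 1 ≤ r ^ 3 := one_le_pow₀ hr
    nlinarith
  linarith

theorem hole_eventually (δ : ℝ) (hδ0 : 0 < δ) (hδ1 : δ ≤ 1) :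
    ∀ᶠ r : ℝ in atTop, holeExponent (rect δ) r ≤ 121 * δ ^ 2 * r ^ 4 := by
  filter_upwards [eventually_ge_atTop 1, eventually_ge_atTop (1500 / δ ^ 2)] with r hr1 hr2
  have h1 := hole_le δ r hδ0 hδ1 hr1
  have h2 : 1500 ≤ δ ^ 2 * r := by
    rw [div_le_iff₀ (by positivity)] at hr2
    linarith
  have h3 : 1500 * r ^ 3 ≤ δ ^ 2 * r ^ 4 := by
    calc 1500 * r ^ 3 ≤ (δ ^ 2 * r) * r ^ 3 := mul_le_mul_of_nonneg_right h2 (by positivity)
      _ = δ ^ 2 * r ^ 4 := by ring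
  linarith

theorem rect_eq (δ : ℝ) : rect δ = (Set.Icc (0 : ℝ) 1) ×ℂ (Set.Icc (-δ) δ) := by
  ext w
  simp only [rect, Set.mem_setOf_eq, Complex.mem_reProdIm, Set.mem_Icc, abs_le]
  tauto

theorem rect_compact (δ : ℝ) : IsCompact (rect δ) := by
  rw [rect_eq]
  exact isCompact_Icc.reProdIm isCompact_Icc

theorem rect_convex (δ : ℝ) : Convex ℝ (rect δ) := by
  have h1 : Convex ℝ (Complex.reLm ⁻¹' (Set.Icc (0 : ℝ) 1)) :=
    (convex_Icc (0 : ℝ) 1).linear_preimage Complex.reLm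
  have h2 : Convex ℝ (Complex.imLm ⁻¹' (Set.Icc (-δ) δ)) :=
    (convex_Icc (-δ) δ).linear_preimage Complex.imLm
  have h3 : rect δ = (Complex.reLm ⁻¹' (Set.Icc (0 : ℝ) 1)) ∩ (Complex.imLm ⁻¹' (Set.Icc (-δ) δ)) := by
    rw [rect_eq]
    rfl
  rw [h3]
  exact h1.inter h2

theorem rect_connected (δ : ℝ) (hδ : 0 ≤ δ) : IsConnected (rect δ) :=
  ⟨⟨0, by simp, by simp, by simpa using hδ⟩, (rect_convex δ).isPreconnected⟩

theorem rect_interior (δ : ℝ) (hδ : 0 < δ) : (interior (rect δ)).Nonempty := by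
  rw [rect_eq, Complex.interior_reProdIm, interior_Icc, interior_Icc]
  refine ⟨⟨1 / 2, 0⟩, ?_⟩
  rw [Complex.mem_reProdIm]
  constructor
  · constructor <;> norm_num
  · exact ⟨by simpa using hδ, by simpa using hδ⟩

end Pool.Agent.X145.Hole
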