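import Pool.Agent.X145.Hole.Ana
import Pool.Agent.X145.Hole.Defs

set_option autoImplicit false
open MeasureTheory Filter Topology Set
open scoped ENNReal

namespace Pool.Agent.X145.Hole

theorem integral_exp_c {b : ℝ} (hb : 0 < b) : ∫ w : ℂ, Real.exp (-b * ‖w‖ ^ 2) = Real.pi / b := by
  rw [GaussianFourier.integral_rexp_neg_mul_sq_norm hb, Complex.finrank_real_complex]
  norm_num

theorem integrable_exp_c {b : ℝ} (hb : 0 < b) : Integrable (fun w : ℂ => Real.exp (-b * ‖w‖ ^ 2)) := by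
  refine Integrable.of_integral_ne_zero ?_
  rw [integral_exp_c hb]
  positivity

theorem lintegral_exp_c {b : ℝ} (hb : 0 < b) :
    ∫⁻ w : ℂ, ENNReal.ofReal (Real.exp (-b * ‖w‖ ^ 2) / Real.pi) = ENNReal.ofReal (1 / b) := by
  have h := integrable_exp_c hb
  rw [← ofReal_integral_eq_lintegral_ofReal (h.div_const _) (ae_of_all _ fun w => by positivity),
    integral_div, integral_exp_c hb]
  congr 1
  field_simp

instance : IsProbabilityMeasure gaussC := by
  constructor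
  unfold gaussC
  rw [withDensity_apply _ MeasurableSet.univ, Measure.restrict_univ]
  have := lintegral_exp_c (b := 1) one_pos
  simp only [neg_mul, one_mul] at this
  rw [this]
  norm_num

/-- small balls -/
theorem gaussC_ball (a : ℂ) (η : ℝ) (ha : ‖a‖ ≤ 1) (hη0 : 0 ≤ η) (hη : η ≤ 1) :
    ENNReal.ofReal (Real.exp (-4) * η ^ 2) ≤ gaussC (Metric.closedBall a η) := by
  unfold gaussC
  rw [withDensity_apply _ measurableSet_closedBall]
  have h1 : ∫⁻ w in Metric.closedBall a η, ENNReal.ofReal (Real.exp (-4) / Real.pi) ≤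
      ∫⁻ w in Metric.closedBall a η, ENNReal.ofReal (Real.exp (-‖w‖ ^ 2) / Real.pi) := by
    refine setLIntegral_mono' measurableSet_closedBall fun w hw => ?_
    refine ENNReal.ofReal_le_ofReal ?_
    refine div_le_div_of_nonneg_right (Real.exp_le_exp.2 ?_) Real.pi_pos.le
    have h2 : ‖w‖ ≤ 2 := by
      have h3 : ‖w - a‖ ≤ η := by
        have := Metric.mem_closedBall.1 hw
        rwa [dist_eq_norm] at this
      calc ‖w‖ = ‖(w - a) + a‖ := by rw [sub_add_cancel]
        _ ≤ ‖w - a‖ + ‖a‖ := norm_add_le _ _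
        _ ≤ 2 := by linarith
    nlinarith [norm_nonneg w]
  refine le_trans ?_ h1
  rw [setLIntegral_const, Complex.volume_closedBall, ← ENNReal.ofReal_coe_nnreal,
    ← ENNReal.ofReal_pow hη0, ← ENNReal.ofReal_mul (by positivity), ← ENNReal.ofReal_mul (by positivity)]
  refine ENNReal.ofReal_le_ofReal (le_of_eq ?_)
  rw [NNReal.coe_real_pi]
  field_simp

/-- tails -/
theorem gaussC_tail (t : ℝ) (ht : 0 ≤ t) :
    gaussC {w | t < ‖w‖} ≤ ENNReal.ofReal (2 * Real.exp (-(t ^ 2 / 2))) := by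
  have hms : MeasurableSet {w : ℂ | t < ‖w‖} := measurableSet_lt measurable_const measurable_norm
  unfold gaussC
  rw [withDensity_apply _ hms]
  have h1 : ∫⁻ w in {w : ℂ | t < ‖w‖}, ENNReal.ofReal (Real.exp (-‖w‖ ^ 2) / Real.pi) ≤
      ∫⁻ w in {w : ℂ | t < ‖w‖}, ENNReal.ofReal (Real.exp (-(t ^ 2 / 2))) *
        ENNReal.ofReal (Real.exp (-(1 / 2) * ‖w‖ ^ 2) / Real.pi) := by
    refine setLIntegral_mono' hms fun w hw => ?_
    rw [← ENNReal.ofReal_mul (Real.exp_pos _).le]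
    refine ENNReal.ofReal_le_ofReal ?_
    rw [← mul_div_assoc, ← Real.exp_add]
    refine div_le_div_of_nonneg_right (Real.exp_le_exp.2 ?_) Real.pi_pos.le
    have hw' : t < ‖w‖ := hw
    nlinarith
  refine h1.trans ((setLIntegral_le_lintegral _ _).trans ?_)
  rw [lintegral_const_mul' _ _ ENNReal.ofReal_ne_top, lintegral_exp_c (by norm_num),
    ← ENNReal.ofReal_mul (Real.exp_pos _).le]
  refine ENNReal.ofReal_le_ofReal (le_of_eq ?_)
  ring

theorem gaussC_tail_pow (n : ℕ) (hn : 2 ≤ n) :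
    gaussC {w | (2 : ℝ) ^ n < ‖w‖} ≤ ENNReal.ofReal ((1 / 2) ^ n) := by
  refine (gaussC_tail _ (by positivity)).trans (ENNReal.ofReal_le_ofReal ?_)
  -- `2 exp (-4^n/2) ≤ 2^{-n}`
  have h1 : ((2 : ℝ) ^ n) ^ 2 / 2 + 1 ≤ Real.exp (((2 : ℝ) ^ n) ^ 2 / 2) := Real.add_one_le_exp _
  have h2 : (4 : ℝ) ≤ 2 ^ n := by
    calc (4 : ℝ) = 2 ^ 2 := by norm_num
      _ ≤ 2 ^ n := pow_le_pow_right₀ (by norm_num) hn
  rw [Real.exp_neg, one_div, inv_pow, ← div_eq_mul_inv, ← one_div, div_le_div_iff₀ (Real.exp_pos _) (by positivity)]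
  nlinarith

instance : IsProbabilityMeasure gefLaw := by
  unfold gefLaw
  infer_instance

/-- good event, first part -/
def E1 (N : ℕ) (η : ℝ) : Set (ℕ → ℂ) :=
  Set.pi ((Finset.range (N + 1) : Finset ℕ) : Set ℕ) (fun n => Metric.closedBall ((Fc n : ℝ) : ℂ) η)

theorem E1_eq (N : ℕ) (η : ℝ) :
    gefLaw (E1 N η) = ∏ n ∈ Finset.range (N + 1), gaussC (Metric.closedBall ((Fc n : ℝ) : ℂ) η) := by
  unfold gefLaw E1
  rw [Measure.infinitePi_pi]
  intro n _
  exact measurableSet_closedBall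

theorem E1_low (N : ℕ) (η : ℝ) (hη0 : 0 ≤ η) (hη : η ≤ 1) :
    ENNReal.ofReal ((Real.exp (-4) * η ^ 2) ^ (N + 1)) ≤ gefLaw (E1 N η) := by
  rw [E1_eq, ENNReal.ofReal_pow (by positivity)]
  calc (ENNReal.ofReal (Real.exp (-4) * η ^ 2)) ^ (N + 1)
      = ∏ _n ∈ Finset.range (N + 1), ENNReal.ofReal (Real.exp (-4) * η ^ 2) := by
        rw [Finset.prod_const, Finset.card_range]
    _ ≤ _ := by
        refine Finset.prod_le_prod' fun n _ => gaussC_ball _ _ ?_ hη0 hη
        rw [Complex.norm_real, Real.norm_of_nonneg (Fc_nonneg n)]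
        exact Fc_le_one n

/-- bad events -/
def bad (N : ℕ) (η : ℝ) (n : ℕ) : Set (ℕ → ℂ) := E1 N η ∩ {ξ | (2 : ℝ) ^ n < ‖ξ n‖}

theorem bad_le (N : ℕ) (η : ℝ) (n : ℕ) (hn : N < n) (hn2 : 2 ≤ n) :
    gefLaw (bad N η n) ≤ gefLaw (E1 N η) * ENNReal.ofReal ((1 / 2) ^ n) := by
  have hms : MeasurableSet {w : ℂ | (2 : ℝ) ^ n < ‖w‖} :=
    measurableSet_lt measurable_const measurable_norm
  have h1 : bad N η n = Set.pi ((insert n (Finset.range (N + 1)) : Finset ℕ) : Set ℕ)
      (fun k => if k = n then {w : ℂ | (2 : ℝ) ^ n < ‖w‖} else Metric.closedBall ((Fc k : ℝ) : ℂ) η) := by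
    ext ξ
    simp only [bad, E1, Set.mem_inter_iff, Set.mem_pi, Finset.coe_range, Set.mem_Iio,
      Finset.coe_insert, Set.mem_insert_iff, Set.mem_setOf_eq]
    constructor
    · rintro ⟨h1, h2⟩ k hk
      by_cases hkn : k = n
      · rw [if_pos hkn, hkn]
        exact h2
      · rw [if_neg hkn]
        exact h1 k (hk.resolve_left hkn)
    · intro h
      refine ⟨fun k hk => ?_, ?_⟩
      · have := h k (Or.inr hk)
        rwa [if_neg (by omega)] at this
      · have := h n (Or.inl rfl)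
        rwa [if_pos rfl] at this
  have hnot : n ∉ Finset.range (N + 1) := by
    rw [Finset.mem_range]
    omega
  rw [h1, E1_eq]
  unfold gefLaw
  rw [Measure.infinitePi_pi, Finset.prod_insert hnot, if_pos rfl, mul_comm]
  · refine mul_le_mul' (le_of_eq ?_) (gaussC_tail_pow n hn2)
    refine Finset.prod_congr rfl fun k hk => ?_
    rw [if_neg]
    rintro rfl
    exact hnot hk
  · intro k _
    split_ifs
    · exact hms
    · exact measurableSet_closedBall

/-- the good event -/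
def good (N : ℕ) (η : ℝ) : Set (ℕ → ℂ) :=
  {ξ | (∀ n, n ≤ N → ‖ξ n - Fc n‖ ≤ η) ∧ ∀ n, N < n → ‖ξ n‖ ≤ 2 ^ n}

theorem good_low (N : ℕ) (η : ℝ) (hN : 1 ≤ N) (hη0 : 0 ≤ η) (hη : η ≤ 1) :
    ENNReal.ofReal ((Real.exp (-4) * η ^ 2) ^ (N + 1) / 2) ≤ gefLaw (good N η) := by
  have hsub : E1 N η ⊆ good N η ∪ ⋃ k : ℕ, bad N η (k + (N + 1)) := by
    intro ξ hξ
    by_cases h : ∀ n, N < n → ‖ξ n‖ ≤ 2 ^ n
    · left
      refine ⟨fun n hn => ?_, h⟩
      have := hξ n (by
        simp only [Finset.coe_range, Set.mem_Iio]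
        omega)
      rwa [Metric.mem_closedBall, dist_eq_norm] at this
    · right
      push Not at h
      obtain ⟨n, hn, hn2⟩ := h
      refine Set.mem_iUnion.2 ⟨n - (N + 1), hξ, ?_⟩
      have e : n - (N + 1) + (N + 1) = n := by omega
      rw [e]
      exact hn2
  have h1 : gefLaw (E1 N η) ≤ gefLaw (good N η) + gefLaw (E1 N η) * ENNReal.ofReal (1 / 2) := by
    refine (measure_mono hsub).trans ((measure_union_le _ _).trans (add_le_add_right ?_ _ ))
    refine (measure_iUnion_le _).trans ?_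
    have h2 : ∀ k : ℕ, gefLaw (bad N η (k + (N + 1))) ≤
        gefLaw (E1 N η) * ENNReal.ofReal ((1 / 2) ^ (k + (N + 1))) :=
      fun k => bad_le N η _ (by omega) (by omega)
    refine (ENNReal.tsum_le_tsum h2).trans ?_
    rw [ENNReal.tsum_mul_left]
    refine mul_le_mul_right ?_ _
    rw [← ENNReal.ofReal_tsum_of_nonneg (fun k => by positivity)]
    · refine ENNReal.ofReal_le_ofReal ?_
      have : ∀ k : ℕ, (1 / 2 : ℝ) ^ (k + (N + 1)) = (1 / 2) ^ (N + 1) * (1 / 2) ^ k := by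
        intro k
        rw [pow_add]
        ring
      simp_rw [this]
      rw [tsum_mul_left, tsum_geometric_two, pow_succ]
      have : (1 / 2 : ℝ) ^ N ≤ 1 / 2 := by
        calc (1 / 2 : ℝ) ^ N ≤ (1 / 2) ^ 1 := pow_le_pow_of_le_one (by norm_num) (by norm_num) hN
          _ = 1 / 2 := by norm_num
      linarith
    · exact (summable_nat_add_iff (N + 1)).2 summable_geometric_two
  have h3 := E1_low N η hη0 hη
  have hfin : gefLaw (E1 N η) ≠ ⊤ := measure_ne_top _ _
  -- pass to real numbers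
  have hgf : gefLaw (good N η) ≠ ⊤ := measure_ne_top _ _
  rw [ENNReal.ofReal_le_iff_le_toReal hgf]
  have h4 : (gefLaw (E1 N η)).toReal ≤ (gefLaw (good N η)).toReal + (gefLaw (E1 N η)).toReal * (1 / 2) := by
    have := ENNReal.toReal_mono (by
      exact ENNReal.add_ne_top.2 ⟨hgf, ENNReal.mul_ne_top hfin ENNReal.ofReal_ne_top⟩) h1
    rwa [ENNReal.toReal_add hgf (ENNReal.mul_ne_top hfin ENNReal.ofReal_ne_top), ENNReal.toReal_mul,
      ENNReal.toReal_ofReal (by norm_num)] at this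
  rw [ENNReal.ofReal_le_iff_le_toReal hfin] at h3
  linarith

end Pool.Agent.X145.Hole
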